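import Pool.Agent.helper36.PT.Spec

/-!
# Project PT (MP_ad8ced_nt), row OFP: one pair of primes
-/

set_option autoImplicit false

namespace Pool.Agent.PT

open Finset Pool.Agent.helper71.AA

lemma OFP_Qm (w : ℕ) (X η : ℝ) : ∀ l ∈ Qm w X η, l.Prime ∧ w < l := by
  intro l hl
  unfold Qm Qs at hl
  rw [mem_filter, mem_Ioc] at hl
  exact ⟨hl.2, hl.1.1⟩

lemma OFP_Ql (w : ℕ) (X η : ℝ) (h : (w : ℝ) ≤ X ^ η) : ∀ l ∈ Ql X η, l.Prime ∧ w < l := by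
  intro l hl
  unfold Ql Qs at hl
  rw [mem_filter, mem_Ioc] at hl
  exact ⟨hl.2, lt_of_le_of_lt (Nat.le_floor h) hl.1.1⟩

lemma OFP_disj (w : ℕ) (X η : ℝ) : Disjoint (Qm w X η) (Ql X η) := by
  rw [Finset.disjoint_left]
  intro l h1 h2
  unfold Qm Qs at h1
  unfold Ql Qs at h2
  rw [mem_filter, mem_Ioc] at h1 h2
  omega

lemma OFP_Cf (Q : Finset ℕ) (hQ : ∀ l ∈ Q, 2 ≤ l) (p q : ℕ) : 1 ≤ Cf Q p q := by
  unfold Cf
  calc (1 : ℝ) = ∏ _l ∈ (Q.erase p).erase q, (1 : ℝ) := by simp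
    _ ≤ _ := by
      refine Finset.prod_le_prod (fun _ _ => zero_le_one) (fun l hl => ?_)
      have h2 : (2 : ℝ) ≤ l := by exact_mod_cast hQ l (mem_of_mem_erase (mem_of_mem_erase hl))
      have h3 : (0 : ℝ) ≤ (if l ∈ Nn Q p q then (l : ℝ) - 1 else 1) := by
        split_ifs
        · linarith
        · norm_num
      have h4 : 0 ≤ 81 * (if l ∈ Nn Q p q then (l : ℝ) - 1 else 1) / ((l : ℝ) - 1) ^ 2 :=
        div_nonneg (mul_nonneg (by norm_num) h3) (sq_nonneg _)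
      linarith

lemma OFP_Rep (Q : Finset ℕ) (R : ℝ) (θ : Finset ℕ → ℝ) (h : Rep Q (fun A => Sg Q R A ^ 2) θ) :
    Rep Q (Ff Q R 1 (fun _ => 0)) θ := by
  intro A hA
  rw [← h A hA]
  unfold Ff Vf
  simp

lemma OFP_Th (Q : Finset ℕ) (hQ : ∀ l ∈ Q, 2 ≤ l) (R : ℝ) (θ : Finset ℕ → ℝ)
    (h : Rep Q (fun A => Sg Q R A ^ 2) θ) (K : Finset ℕ) (hK : K ⊆ Q) :
    |Th Q θ K| ≤ (2 * Gs Q R) * (9 ^ K.card / ph K) := by
  have h1 := Th_Ff Q hQ R 1 zero_le_one (fun _ => 0) (fun _ => ⟨le_rfl, zero_le_one⟩) θ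
    (OFP_Rep Q R θ h) K hK
  refine h1.trans (le_of_eq ?_)
  simp only [zero_div, sum_const_zero, mul_zero, add_zero]
  norm_num

/-- the small primes -/
lemma OFP_small (h6 : COR_stmt) (Q : Finset ℕ) (hQ : ∀ l ∈ Q, 2 ≤ l) (R : ℝ) (p q : ℕ)
    (θ θ' : Finset ℕ → ℝ) (h : Rep (Q.erase p) (fun A => Sg (Q.erase p) R A ^ 2) θ)
    (h' : Rep (Q.erase q) (fun A => Sg (Q.erase q) R A ^ 2) θ')
    (hG : 0 ≤ Gs (Q.erase p) R) (hG' : 0 ≤ Gs (Q.erase q) R) :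
    ∑ D ∈ (Q.erase p).powerset, ∑ E ∈ (Q.erase q).powerset, θ D * θ' E * rho (Nn Q p q) D E ≤
      Gs (Q.erase p) R * Gs (Q.erase q) R * (1 + 4 * (Cf Q p q - 1)) ∧
    |∑ D ∈ (Q.erase p).powerset, ∑ E ∈ (Q.erase q).powerset, θ D * θ' E * rho (Nn Q p q) D E| ≤
      4 * Gs (Q.erase p) R * Gs (Q.erase q) R * Cf Q p q := by
  have hp2 : ∀ l ∈ Q.erase p, 2 ≤ l := fun l hl => hQ l (mem_of_mem_erase hl)
  have hq2 : ∀ l ∈ Q.erase q, 2 ≤ l := fun l hl => hQ l (mem_of_mem_erase hl)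
  have e1 : Th (Q.erase p) θ ∅ = Gs (Q.erase p) R := by
    rw [Th_empty _ hp2 _ _ h, Ex_Sg_empty _ hp2]
  have e2 : Th (Q.erase q) θ' ∅ = Gs (Q.erase q) R := by
    rw [Th_empty _ hq2 _ _ h', Ex_Sg_empty _ hq2]
  constructor
  · have h1 := corr_le Q hQ p q θ θ' (2 * Gs (Q.erase p) R) (2 * Gs (Q.erase q) R)
      (by linarith) (by linarith) (OFP_Th _ hp2 R θ h) (OFP_Th _ hq2 R θ' h')
    rw [e1, e2] at h1
    refine h1.trans (le_of_eq ?_)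
    ring
  · have h1 := h6 Q hQ p q θ θ' (2 * Gs (Q.erase p) R) (2 * Gs (Q.erase q) R)
      (by linarith) (by linarith) (OFP_Th _ hp2 R θ h) (OFP_Th _ hq2 R θ' h')
    refine h1.trans (le_of_eq ?_)
    ring

/-- the arithmetic -/
lemma OFP_arith (Ms Ml Gp Gq G V Vp Vq c e e' : ℝ) (hG1 : 0 ≤ Gp) (hG2 : 0 ≤ Gq) (hGp : Gp ≤ G)
    (hGq : Gq ≤ G) (hV : 0 ≤ V) (hV1 : V ≤ 1) (hVp : 0 ≤ Vp) (hVq : 0 ≤ Vq) (h1 : |Vp - V| ≤ e)
    (h2 : |Vq - V| ≤ e) (he : 0 ≤ e) (he1 : e ≤ 1) (hc : 1 ≤ c)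
    (hs : Ms ≤ Gp * Gq * (1 + 4 * (c - 1))) (hs' : |Ms| ≤ 4 * Gp * Gq * c)
    (hl : |Ml - Vp * Vq| ≤ e) (hee : 16 * e ≤ e') :
    Ms * Ml ≤ G ^ 2 * (V ^ 2 * (1 + 4 * (c - 1)) + c * e') := by
  have hc0 : 0 ≤ 1 + 4 * (c - 1) := by linarith
  have hg : Gp * Gq ≤ G ^ 2 := by
    rw [sq]
    exact mul_le_mul hGp hGq hG2 (hG1.trans hGp)
  have hg0 : 0 ≤ Gp * Gq := mul_nonneg hG1 hG2
  have hv : Vp * Vq ≤ (V + e) ^ 2 := by
    rw [sq]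
    exact mul_le_mul (by linarith [(abs_le.1 h1).2]) (by linarith [(abs_le.1 h2).2]) hVq (by linarith)
  have hv2 : (V + e) ^ 2 ≤ V ^ 2 + 3 * e := by
    have a1 : V * e ≤ 1 * e := mul_le_mul_of_nonneg_right hV1 he
    have a2 : e * e ≤ 1 * e := mul_le_mul_of_nonneg_right he1 he
    nlinarith
  have hvv : 0 ≤ Vp * Vq := mul_nonneg hVp hVq
  have a1 : Ms * (Vp * Vq) ≤ Gp * Gq * (1 + 4 * (c - 1)) * (Vp * Vq) :=
    mul_le_mul_of_nonneg_right hs hvv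
  have a2 : Gp * Gq * (1 + 4 * (c - 1)) * (Vp * Vq) ≤
      G ^ 2 * (1 + 4 * (c - 1)) * (V ^ 2 + 3 * e) :=
    mul_le_mul (mul_le_mul_of_nonneg_right hg hc0) (hv.trans hv2) hvv
      (mul_nonneg (sq_nonneg _) hc0)
  have a3 : Ms * (Ml - Vp * Vq) ≤ 4 * G ^ 2 * c * e := by
    calc Ms * (Ml - Vp * Vq) ≤ |Ms * (Ml - Vp * Vq)| := le_abs_self _
      _ = |Ms| * |Ml - Vp * Vq| := abs_mul _ _
      _ ≤ (4 * Gp * Gq * c) * e := mul_le_mul hs' hl (abs_nonneg _) (by positivity)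
      _ ≤ 4 * G ^ 2 * c * e := by
        have : 4 * Gp * Gq * c * e = (Gp * Gq) * (4 * c * e) := by ring
        rw [this]
        have h3 := mul_le_mul_of_nonneg_right hg (show 0 ≤ 4 * c * e by positivity)
        refine h3.trans (le_of_eq ?_)
        ring
  have a4 : (1 + 4 * (c - 1)) * (3 * e) ≤ 12 * (c * e) := by nlinarith
  have a5 : c * (16 * e) ≤ c * e' := mul_le_mul_of_nonneg_left hee (by linarith)
  have a6 : G ^ 2 * ((1 + 4 * (c - 1)) * (V ^ 2 + 3 * e) + 4 * c * e) ≤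
      G ^ 2 * (V ^ 2 * (1 + 4 * (c - 1)) + c * e') := by
    refine mul_le_mul_of_nonneg_left ?_ (sq_nonneg _)
    nlinarith
  calc Ms * Ml = Ms * (Vp * Vq) + Ms * (Ml - Vp * Vq) := by ring
    _ ≤ G ^ 2 * (1 + 4 * (c - 1)) * (V ^ 2 + 3 * e) + 4 * G ^ 2 * c * e :=
        add_le_add (a1.trans a2) a3
    _ = G ^ 2 * ((1 + 4 * (c - 1)) * (V ^ 2 + 3 * e) + 4 * c * e) := by ring
    _ ≤ _ := a6

/-- **OFP** -/
theorem OFP (h1 : ERR_stmt) (h2 : CEX_stmt) (h3 : PAI_stmt) (h4 : CFW_stmt) (h5 : FAC_stmt)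
    (h6 : COR_stmt) (h7 : LRG_stmt) (h8 : GPR_stmt) : OFP_stmt := by
  intro w hw η hη hη1
  obtain ⟨X1, hX1⟩ := h1 w
  obtain ⟨X2, hX2⟩ := h4 w (by omega) η hη hη1
  obtain ⟨X3, hX3⟩ := h7 η hη hη1
  have ev1 : ∀ᶠ X : ℝ in Filter.atTop, (w : ℝ) ≤ X ^ η :=
    (tendsto_rpow_atTop hη).eventually_ge_atTop _
  have ev2 : ∀ᶠ X : ℝ in Filter.atTop, (16 : ℝ) ≤ X ^ (η / 6) :=
    (tendsto_rpow_atTop (by positivity)).eventually_ge_atTop _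
  obtain ⟨X4, hX4⟩ := Filter.eventually_atTop.1 (ev1.and ev2)
  refine ⟨max (max X1 X2) (max (max X3 X4) 1), ?_⟩
  intro X hX p q hp hq hpq hwp hwq hpX hqX a₀ ξ hξ hV0 hV1
  have g1 : X1 ≤ X := (le_max_left _ _).trans ((le_max_left _ _).trans hX)
  have g2 : X2 ≤ X := (le_max_right _ _).trans ((le_max_left _ _).trans hX)
  have g3 : X3 ≤ X := (le_max_left _ _).trans ((le_max_left _ _).trans ((le_max_right _ _).trans hX))
  have g4 : X4 ≤ X := (le_max_right _ _).trans ((le_max_left _ _).trans ((le_max_right _ _).trans hX))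
  have g5 : 1 ≤ X := (le_max_right _ _).trans ((le_max_right _ _).trans hX)
  have hX0 : 0 < X := by linarith
  obtain ⟨hwX, h16⟩ := hX4 X g4
  have hsmall : X ^ (0.0001 : ℝ) ≤ X := by
    calc X ^ (0.0001 : ℝ) ≤ X ^ (1 : ℝ) := Real.rpow_le_rpow_of_exponent_le g5 (by norm_num)
      _ = X := Real.rpow_one X
  have hpX' : (p : ℝ) ≤ X := hpX.trans hsmall
  have hqX' : (q : ℝ) ≤ X := hqX.trans hsmall
  have hQ1 := OFP_Qm w X η
  have hQ2 := OFP_Ql w X η hwX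
  have hdis := OFP_disj w X η
  have hQ : ∀ l ∈ Qm w X η ∪ Ql X η, l.Prime ∧ w < l := by
    intro l hl
    rcases mem_union.1 hl with hl | hl
    · exact hQ1 l hl
    · exact hQ2 l hl
  have hQ1' : ∀ l ∈ Qm w X η, 2 ≤ l := fun l hl => (hQ1 l hl).1.two_le
  have hQ' : ∀ l ∈ Qm w X η ∪ Ql X η, 2 ≤ l := fun l hl => (hQ l hl).1.two_le
  obtain ⟨θp, hp1, -, hp3, hp4, hp5⟩ := hX2 X g2 ξ hξ p
  obtain ⟨θq, hq1, -, hq3, hq4, hq5⟩ := hX2 X g2 ξ hξ q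
  have hcc : ∀ D E : Finset ℕ, ∃ c : ℤ, D ⊆ (Qm w X η ∪ Ql X η).erase p →
      E ⊆ (Qm w X η ∪ Ql X η).erase q → D ∩ E ⊆ Nn (Qm w X η ∪ Ql X η) p q →
      Cs w p q a₀ D E c := by
    intro D E
    by_cases hD : D ⊆ (Qm w X η ∪ Ql X η).erase p
    · by_cases hE : E ⊆ (Qm w X η ∪ Ql X η).erase q
      · by_cases hN : D ∩ E ⊆ Nn (Qm w X η ∪ Ql X η) p q
        · obtain ⟨c, hc⟩ := ((h2 w a₀ _ p q hQ hp hq D hD E hE).1 hN).1
          exact ⟨c, fun _ _ _ => hc⟩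
        · exact ⟨0, fun _ _ h => absurd h hN⟩
      · exact ⟨0, fun _ h _ => absurd h hE⟩
    · exact ⟨0, fun h _ _ => absurd h hD⟩
  choose c hc using hcc
  have hc' : ∀ D ⊆ (Qm w X η ∪ Ql X η).erase p, ∀ E ⊆ (Qm w X η ∪ Ql X η).erase q,
      D ∩ E ⊆ Nn (Qm w X η ∪ Ql X η) p q → Cs w p q a₀ D E (c D E) :=
    fun D hD E hE hN => hc D E hD hE hN
  have key := h3 w a₀ X (Qm w X η ∪ Ql X η) p q (Fp w X η ξ p) (Fp w X η ξ q) (xp w X η ξ θp p)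
    (xp w X η ξ θq q) g5 hQ hp hq hp3 hq3 c hc'
  have herr := hX1 X g1 p q hp hq hpq hwp hwq hpX hqX a₀ (Qm w X η ∪ Ql X η)
    (xp w X η ξ θp p) (xp w X η ξ θq q) hQ hp4 hq4 c hc'
  have hfun : (fun a => fw w X η ξ p a * fw w X η ξ q a) =
      fun a => Fp w X η ξ p (Az (Qm w X η ∪ Ql X η) p a) *
        Fp w X η ξ q (Az (Qm w X η ∪ Ql X η) q a) := by
    funext a
    rw [hp5 a, hq5 a]
  -- the factorisation
  have hS := (h5 (Qm w X η) (Ql X η) hdis hQ' p q θp θq ξ ξ).2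
  have hS' : ∑ D ∈ ((Qm w X η ∪ Ql X η).erase p).powerset,
      ∑ E ∈ ((Qm w X η ∪ Ql X η).erase q).powerset,
        xp w X η ξ θp p D * xp w X η ξ θq q E * rho (Nn (Qm w X η ∪ Ql X η) p q) D E =
      (∑ D ∈ ((Qm w X η).erase p).powerset, ∑ E ∈ ((Qm w X η).erase q).powerset,
        θp D * θq E * rho (Nn (Qm w X η) p q) D E) *
      ∑ D ∈ ((Ql X η).erase p).powerset, ∑ E ∈ ((Ql X η).erase q).powerset,
        ξ D * ξ E * rho (Nn (Ql X η) p q) D E := by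
    rw [← hS]
    refine sum_congr rfl fun D hD => sum_congr rfl fun E hE => ?_
    rw [mem_powerset] at hD hE
    unfold xp
    rw [if_pos hD, if_pos hE]
  -- the real inequality
  have hre : EN (primorial w) a₀ (2 * X) (fun a => fw w X η ξ p a * fw w X η ξ q a) ≤
      2 * X / (primorial w : ℝ) *
        ((∑ D ∈ ((Qm w X η).erase p).powerset, ∑ E ∈ ((Qm w X η).erase q).powerset,
          θp D * θq E * rho (Nn (Qm w X η) p q) D E) *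
        ∑ D ∈ ((Ql X η).erase p).powerset, ∑ E ∈ ((Ql X η).erase q).powerset,
          ξ D * ξ E * rho (Nn (Ql X η) p q) D E) + X ^ (0.9998 : ℝ) := by
    rw [hfun]
    rw [hS'] at key
    have h9 := congrArg Complex.re key
    rw [Complex.add_re, Complex.ofReal_re, Complex.ofReal_re] at h9
    rw [h9]
    exact add_le_add le_rfl ((Complex.re_le_norm _).trans herr)
  -- the small primes
  have hR : 1 ≤ Rr X := Real.one_le_rpow g5 (by norm_num)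
  obtain ⟨u1, u2, -⟩ := h8 w ⌊X ^ η⌋₊ (by omega) (Qm w X η) (Finset.Subset.refl _) (Rr X) p hR hwp
  obtain ⟨v1, v2, -⟩ := h8 w ⌊X ^ η⌋₊ (by omega) (Qm w X η) (Finset.Subset.refl _) (Rr X) q hR hwq
  obtain ⟨s1, s2⟩ := OFP_small h6 (Qm w X η) hQ1' (Rr X) p q θp θq hp1 hq1 (by linarith)
    (by linarith)
  -- the large primes
  obtain ⟨l1, l2, l3⟩ := hX3 X g3 ξ hξ p q hp hq hpq hpX' hqX'
  obtain ⟨m1, m2, -⟩ := hX3 X g3 ξ hξ q p hq hp (Ne.symm hpq) hqX' hpX'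
  have he0 : 0 ≤ X ^ (-(η / 2)) := Real.rpow_nonneg hX0.le _
  have he1 : X ^ (-(η / 2)) ≤ 1 := Real.rpow_le_one_of_one_le_of_nonpos g5 (by linarith)
  have hee : 16 * X ^ (-(η / 2)) ≤ X ^ (-(η / 3)) := by
    have e1 : X ^ (-(η / 3)) = X ^ (η / 6) * X ^ (-(η / 2)) := by
      rw [← Real.rpow_add hX0]
      congr 1
      ring
    rw [e1]
    exact mul_le_mul_of_nonneg_right h16 he0
  have hfin := OFP_arith _ _ _ _ (Gs (Qm w X η) (Rr X)) (Vx (Ql X η) ξ) _ _ (Cf (Qm w X η) p q)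
    (X ^ (-(η / 2))) (X ^ (-(η / 3))) (by linarith) (by linarith) u2 v2 hV0 hV1 l2 m2 l1 m1 he0 he1
    (OFP_Cf (Qm w X η) hQ1' p q) s1 s2 l3 hee
  refine hre.trans (add_le_add ?_ le_rfl)
  have h2X : 0 ≤ 2 * X / (primorial w : ℝ) := by positivity
  calc 2 * X / (primorial w : ℝ) * _ ≤ 2 * X / (primorial w : ℝ) * _ :=
        mul_le_mul_of_nonneg_left hfin h2X
    _ = _ := by ring

end Pool.Agent.PT
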